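import Mathlib

namespace Pool.Agent.Work.MP_5fe04c_ag

open MvPowerSeries

noncomputable section

/-- The formal power series ring `k[[x,y,z]]` in three variables. -/
abbrev PS (k : Type*) [Field k] : Type _ := MvPowerSeries (Fin 3) k

/-- The maximal ideal `(x,y,z)` of `k[[x,y,z]]`. -/
def mm (k : Type*) [Field k] : Ideal (PS k) := Ideal.span (Set.range (X : Fin 3 → PS k))

/-- For an ideal `I` of `R = k[[x,y,z]]`, the `i`-th power of the maximal ideal of `A = R/I`
(the image of `(x,y,z)^i` in `A`), as a `k`-subspace of `A`. -/
def powImage {k : Type*} [Field k] (I : Ideal (PS k)) (i : ℕ) : Submodule k (PS k ⧸ I) :=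
  ((mm k ^ i).map (Ideal.Quotient.mk I)).restrictScalars k

/-- The Hilbert function of `A = R/I`: `t_i = dim_k (m^i A / m^(i+1) A)`. -/
def hilbertFn {k : Type*} [Field k] (I : Ideal (PS k)) (i : ℕ) : ℕ :=
  Module.finrank k (powImage I i ⧸ (powImage I (i + 1)).submoduleOf (powImage I i))

/-- The (closed points of the) punctual Hilbert scheme: the ideals of `k[[x,y,z]]`
of colength `n`. -/
structure Hilb (k : Type*) [Field k] (n : ℕ) where
  /-- the ideal -/
  ideal : Ideal (PS k)
  /-- its colength is finite -/
  finite : Module.Finite k (PS k ⧸ ideal)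
  /-- its colength is `n` -/
  colength : Module.finrank k (PS k ⧸ ideal) = n

/-- A framed point of `Hilb k n`: an ideal `I` of colength `n` with a `k`-linear
isomorphism `R/I ≃ k^n`. -/
structure Frame (k : Type*) [Field k] (n : ℕ) where
  /-- the underlying point of the Hilbert scheme -/
  pt : Hilb k n
  /-- the framing -/
  iso : (PS k ⧸ pt.ideal) ≃ₗ[k] (Fin n → k)

/-- The matrix of a framed ideal: its columns are the vectors of `k^n` which represent the classes
in `R/I ≃ k^n` of the monomials of degree `< n`. (As `(x,y,z)^n` lies in `I`, this matrix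
presents `I / (x,y,z)^n` as the kernel of a surjection from `R/(x,y,z)^n` onto `k^n`.) -/
def Frame.coords {k : Type*} [Field k] {n : ℕ} (F : Frame k n) :
    Fin n × {d : Fin 3 →₀ ℕ // d.degree < n} → k :=
  fun p => F.iso (Ideal.Quotient.mk F.pt.ideal (monomial p.2.1 (1 : k))) p.1

/-- The Zariski topology on framed ideals: the subspace topology of the Zariski topology of
the affine space of matrices, which is itself induced from the spectrum of the polynomial ring. -/
instance Frame.zariski (k : Type*) [Field k] (n : ℕ) : TopologicalSpace (Frame k n) :=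
  TopologicalSpace.induced (fun F => MvPolynomial.pointToPoint (k := k) F.coords) inferInstance

/-- The Zariski topology on the punctual Hilbert scheme, as a subset of the Grassmannian of
`n`-dimensional quotients of `R/(x,y,z)^n`, that is, the quotient topology of the Zariski topology
on full rank matrices: a set of ideals is open if and only if the set of its framings is
Zariski open. -/
instance Hilb.zariski (k : Type*) [Field k] (n : ℕ) : TopologicalSpace (Hilb k n) :=
  TopologicalSpace.coinduced (Frame.pt : Frame k n → Hilb k n) inferInstance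

/-- `CI(T)`, for a Hilbert function `T` of length `n`: the ideals `I` of `k[[x,y,z]]` of colength
`n` such that `R/I` has Hilbert function `T` and `I` is generated by three elements. -/
def CI (k : Type*) [Field k] (n : ℕ) (T : ℕ → ℕ) : Set (Hilb k n) :=
  {I | hilbertFn I.ideal = T ∧ ∃ f g h : PS k, I.ideal = Ideal.span {f, g, h}}

/-- The sequence `T = (1,3,4,4,3,2,1)`, of length `18`. -/
def T0 : ℕ → ℕ := fun i => [1, 3, 4, 4, 3, 2, 1].getD i 0

end

end Pool.Agent.Work.MP_5fe04c_ag
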