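import Mathlib
import Pool.Agent.Work.MP_5fe04c_ag.Defs

namespace Pool.Agent.Work.MP_5fe04c_ag

open MvPowerSeries Finsupp

variable {k : Type*} [Field k]

lemma mem_mm_iff_order {f : PS k} (h : f ∈ mm k) : (1 : ℕ∞) ≤ f.order := by
  rw [MvPowerSeries.one_le_order_iff_constCoeff_eq_zero]
  have : mm k ≤ RingHom.ker (constantCoeff (σ := Fin 3) (R := k)) := by
    rw [mm, Ideal.span_le]
    rintro _ ⟨i, rfl⟩
    simp [RingHom.mem_ker]
  exact this h

lemma order_of_mem_pow (n : ℕ) : ∀ {f : PS k}, f ∈ mm k ^ n → (n : ℕ∞) ≤ f.order := by
  induction n with
  | zero => intro f _; simp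
  | succ n ih =>
    intro f hf
    rw [pow_succ] at hf
    refine Submodule.mul_induction_on hf ?_ ?_
    · intro a ha b hb
      have h1 := ih ha
      have h2 := mem_mm_iff_order hb
      calc ((n + 1 : ℕ) : ℕ∞) = (n : ℕ∞) + 1 := by push_cast; rfl
        _ ≤ a.order + b.order := add_le_add h1 h2
        _ ≤ (a * b).order := le_order_mul
    · intro a b ha hb
      exact le_trans (le_min ha hb) min_order_le_add

lemma coeff_of_mem_pow {n : ℕ} {f : PS k} (hf : f ∈ mm k ^ n) {d : Fin 3 →₀ ℕ}
    (hd : d.degree < n) : coeff d f = 0 := by
  apply coeff_of_lt_order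
  refine lt_of_lt_of_le ?_ (order_of_mem_pow n hf)
  exact_mod_cast hd

lemma X_mem_mm (i : Fin 3) : (X i : PS k) ∈ mm k := Ideal.subset_span ⟨i, rfl⟩

lemma monomial_mem_pow (d : Fin 3 →₀ ℕ) : (monomial d (1 : k) : PS k) ∈ mm k ^ d.degree := by
  have : (monomial d (1 : k) : PS k) = ∏ i : Fin 3, X i ^ d i := by
    rw [MvPowerSeries.monomial_one_eq, Finsupp.prod_fintype _ _ (by simp)]
  rw [this]
  have hdeg : d.degree = ∑ i : Fin 3, d i := by
    rw [Finsupp.degree_eq_sum]
  rw [hdeg, ← Finset.prod_pow_eq_pow_sum]
  exact Ideal.prod_mem_prod fun i _ => Ideal.pow_mem_pow (X_mem_mm i) _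

lemma mem_of_coeff (n : ℕ) : ∀ (J : Ideal (PS k)),
    (∀ d : Fin 3 →₀ ℕ, d.degree = n → (monomial d (1 : k) : PS k) ∈ J) →
    ∀ f : PS k, (∀ d : Fin 3 →₀ ℕ, d.degree < n → coeff d f = 0) → f ∈ J := by
  induction n with
  | zero =>
    intro J hJ f _
    have h1 : (1 : PS k) ∈ J := by
      have := hJ 0 (by simp)
      rwa [monomial_zero_one] at this
    rw [Ideal.eq_top_iff_one J |>.mpr h1]
    trivial
  | succ n ih =>
    intro J hJ f hf
    -- decomposition f = x f0 + y f1 + z f2
    let g : Fin 3 → PS k := fun i => fun e =>
      if (∀ j, j < i → e j = 0) then coeff (e + single i 1) f else 0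
    have hg : ∀ i e, coeff e (g i) =
      if (∀ j, j < i → e j = 0) then coeff (e + single i 1) f else 0 := fun i e => rfl
    have hdec : f = ∑ i : Fin 3, X i * g i := by
      ext d
      rw [map_sum]
      have hX : ∀ i : Fin 3, coeff d (X i * g i) =
          if single i 1 ≤ d then coeff (d - single i 1) (g i) else 0 := by
        intro i
        rw [X_def, coeff_monomial_mul]
        simp
      simp only [hX, hg]
      by_cases hd0 : d = 0
      · subst hd0
        rw [hf 0 (by simp)]
        symm
        apply Finset.sum_eq_zero
        intro i _
        rw [if_neg]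
        intro h
        have := h i
        simp at this
      · -- the first index i with d i ≠ 0
        obtain ⟨i, hi, hmin⟩ : ∃ i : Fin 3, d i ≠ 0 ∧ ∀ j, j < i → d j = 0 := by
          have hex : ∃ i : Fin 3, d i ≠ 0 := by
            by_contra hcon
            push Not at hcon
            exact hd0 (Finsupp.ext hcon)
          let s : Finset (Fin 3) := Finset.univ.filter (fun i => d i ≠ 0)
          have hs : s.Nonempty := by
            obtain ⟨i, hi⟩ := hex
            exact ⟨i, by simp [s, hi]⟩
          refine ⟨s.min' hs, ?_, ?_⟩
          · have := Finset.min'_mem s hs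
            simpa [s] using this
          · intro j hj
            by_contra hne
            have : j ∈ s := by simp [s, hne]
            exact absurd (Finset.min'_le s j this) (not_le.mpr hj)
        rw [Finset.sum_eq_single i]
        · have hle : single i 1 ≤ d := by
            rw [Finsupp.single_le_iff]
            omega
          rw [if_pos hle, if_pos]
          · rw [tsub_add_cancel_of_le hle]
          · intro j hj
            simp [hmin j hj]
        · intro j _ hj
          by_cases hle : single j 1 ≤ d
          · rw [if_pos hle, if_neg]
            intro hall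
            have hjd : d j ≠ 0 := by
              rw [Finsupp.single_le_iff] at hle
              omega
            have hij : i < j := by
              rcases lt_trichotomy i j with h | h | h
              · exact h
              · exact absurd h.symm hj
              · exact absurd (hmin j h) hjd
            have := hall i hij
            rw [Finsupp.tsub_apply, Finsupp.single_apply, if_neg (by exact fun h => hj h)] at this
            simp at this
            exact hi this
          · rw [if_neg hle]
        · intro h
          exact absurd (Finset.mem_univ i) h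
    rw [hdec]
    apply J.sum_mem
    intro i _
    -- g i lies in (J : X i)
    let Ji : Ideal (PS k) := 
      { carrier := {a | X i * a ∈ J}
        add_mem' := by
          intro a b ha hb
          simp only [Set.mem_ofPred_eq, mul_add] at *
          exact J.add_mem ha hb
        zero_mem' := by simp
        smul_mem' := by
          intro c a ha
          simp only [Set.mem_ofPred_eq, smul_eq_mul] at *
          rw [mul_left_comm]
          exact J.mul_mem_left c ha }
    have hmem : g i ∈ Ji := by
      apply ih Ji
      · intro d hd
        change X i * monomial d (1 : k) ∈ J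
        rw [X_def, monomial_mul_monomial, one_mul]
        apply hJ
        rw [map_add, hd]
        simp [add_comm]
      · intro d hd
        rw [hg]
        split_ifs
        · apply hf
          rw [map_add]
          simp
          omega
        · rfl
    exact hmem

lemma mem_pow_of_coeff {n : ℕ} {f : PS k} (hf : ∀ d : Fin 3 →₀ ℕ, d.degree < n → coeff d f = 0) :
    f ∈ mm k ^ n :=
  mem_of_coeff n (mm k ^ n) (fun d hd => hd ▸ monomial_mem_pow d) f hf

end Pool.Agent.Work.MP_5fe04c_ag
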