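import Mathlib
import Pool.Agent.Work.MP_5fe04c_ag.Defs
import Pool.Agent.Work.MP_5fe04c_ag.Powers

namespace Pool.Agent.Work.MP_5fe04c_ag

open MvPowerSeries Finsupp

variable {k : Type*} [Field k]

lemma powImage_succ_le (I : Ideal (PS k)) (i : ℕ) : powImage I (i + 1) ≤ powImage I i := by
  intro a ha
  exact Ideal.map_mono (Ideal.pow_le_pow_right (Nat.le_succ i)) ha

lemma mem_powImage {I : Ideal (PS k)} {i : ℕ} {f : PS k} (hf : f ∈ mm k ^ i) :
    Ideal.Quotient.mk I f ∈ powImage I i :=
  Ideal.mem_map_of_mem _ hf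

lemma exists_of_mem_powImage {I : Ideal (PS k)} {i : ℕ} {a : PS k ⧸ I} (ha : a ∈ powImage I i) :
    ∃ f ∈ mm k ^ i, Ideal.Quotient.mk I f = a :=
  (Ideal.mem_map_iff_of_surjective _ Ideal.Quotient.mk_surjective).mp ha

lemma hilbert_add (I : Ideal (PS k)) [Module.Finite k (PS k ⧸ I)] (i : ℕ) :
    hilbertFn I i + Module.finrank k (powImage I (i + 1)) = Module.finrank k (powImage I i) := by
  have h1 := Submodule.finrank_quotient_add_finrank
    ((powImage I (i + 1)).submoduleOf (powImage I i))
  have h2 : Module.finrank k ((powImage I (i + 1)).submoduleOf (powImage I i)) =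
      Module.finrank k (powImage I (i + 1)) :=
    LinearEquiv.finrank_eq (Submodule.submoduleOfEquivOfLe (powImage_succ_le I i))
  rw [h2] at h1
  exact h1

lemma powImage_zero (I : Ideal (PS k)) : powImage I 0 = ⊤ := by
  rw [eq_top_iff]
  intro a _
  obtain ⟨f, rfl⟩ := Ideal.Quotient.mk_surjective a
  exact mem_powImage (by simp)

/-- the dimensions of the powers of the maximal ideal of `R/I` for `I` in `CI(T0)` -/
lemma finrank_powImage (I : Ideal (PS k)) [Module.Finite k (PS k ⧸ I)]
    (hn : Module.finrank k (PS k ⧸ I) = 18) (hT : hilbertFn I = T0) :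
    Module.finrank k (powImage I 2) = 14 ∧ Module.finrank k (powImage I 3) = 10 ∧
    Module.finrank k (powImage I 5) = 3 ∧ Module.finrank k (powImage I 6) = 1 ∧
    Module.finrank k (powImage I 7) = 0 := by
  have h0 : Module.finrank k (powImage I 0) = 18 := by
    rw [powImage_zero, finrank_top, hn]
  have e0 : hilbertFn I 0 + Module.finrank k (powImage I 1) = Module.finrank k (powImage I 0) :=
    hilbert_add I 0
  have e1 : hilbertFn I 1 + Module.finrank k (powImage I 2) = Module.finrank k (powImage I 1) :=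
    hilbert_add I 1
  have e2 : hilbertFn I 2 + Module.finrank k (powImage I 3) = Module.finrank k (powImage I 2) :=
    hilbert_add I 2
  have e3 : hilbertFn I 3 + Module.finrank k (powImage I 4) = Module.finrank k (powImage I 3) :=
    hilbert_add I 3
  have e4 : hilbertFn I 4 + Module.finrank k (powImage I 5) = Module.finrank k (powImage I 4) :=
    hilbert_add I 4
  have e5 : hilbertFn I 5 + Module.finrank k (powImage I 6) = Module.finrank k (powImage I 5) :=
    hilbert_add I 5
  have e6 : hilbertFn I 6 + Module.finrank k (powImage I 7) = Module.finrank k (powImage I 6) :=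
    hilbert_add I 6
  rw [hT] at e0 e1 e2 e3 e4 e5 e6
  norm_num [T0] at e0 e1 e2 e3 e4 e5 e6
  omega

lemma pow_seven_le (I : Ideal (PS k)) [Module.Finite k (PS k ⧸ I)]
    (h7 : Module.finrank k (powImage I 7) = 0) : mm k ^ 7 ≤ I := by
  intro f hf
  have h := mem_powImage (I := I) hf
  have hbot : powImage I 7 = ⊥ := Submodule.finrank_eq_zero.mp h7
  rw [hbot, Submodule.mem_bot] at h
  exact Ideal.Quotient.eq_zero_iff_mem.mp h

/-- If there are more elements of `m^i` than the dimension of `m^i A / m^j A`, some nontrivial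
combination lies in `I + m^j`. -/
lemma exists_relation (I : Ideal (PS k)) [Module.Finite k (PS k ⧸ I)] (i j r : ℕ)
    (hij : powImage I j ≤ powImage I i)
    (hr : Module.finrank k (powImage I i) < r + Module.finrank k (powImage I j))
    (t : Fin r → PS k) (ht : ∀ a, t a ∈ mm k ^ i) :
    ∃ c : Fin r → k, c ≠ 0 ∧ ∃ u ∈ I, ∃ v ∈ mm k ^ j, ∑ a, c a • t a = u + v := by
  let L : (Fin r → k) →ₗ[k] (powImage I i ⧸ (powImage I j).submoduleOf (powImage I i)) :=
    Fintype.linearCombination k
      (fun a => Submodule.Quotient.mk ⟨Ideal.Quotient.mk I (t a), mem_powImage (ht a)⟩)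
  have hq : Module.finrank k (powImage I i ⧸ (powImage I j).submoduleOf (powImage I i)) < r := by
    have h1 := Submodule.finrank_quotient_add_finrank
      ((powImage I j).submoduleOf (powImage I i))
    have h2 : Module.finrank k ((powImage I j).submoduleOf (powImage I i)) =
        Module.finrank k (powImage I j) :=
      LinearEquiv.finrank_eq (Submodule.submoduleOfEquivOfLe hij)
    omega
  have hker : LinearMap.ker L ≠ ⊥ := by
    apply LinearMap.ker_ne_bot_of_finrank_lt
    simpa using hq
  obtain ⟨c, hc, hc0⟩ := (Submodule.ne_bot_iff _).mp hker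
  refine ⟨c, hc0, ?_⟩
  rw [LinearMap.mem_ker] at hc
  have h3 : (Submodule.Quotient.mk (∑ a, c a • (⟨Ideal.Quotient.mk I (t a),
      mem_powImage (ht a)⟩ : powImage I i)) :
      powImage I i ⧸ (powImage I j).submoduleOf (powImage I i)) = 0 := by
    rw [← hc]
    simp only [L, Fintype.linearCombination_apply]
    rw [← Submodule.mkQ_apply, map_sum]
    rfl
  rw [Submodule.Quotient.mk_eq_zero, Submodule.submoduleOf, Submodule.mem_comap] at h3
  obtain ⟨v, hv, hv2⟩ := exists_of_mem_powImage h3
  refine ⟨∑ a, c a • t a - v, ?_, v, hv, by ring⟩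
  rw [← Ideal.Quotient.eq_zero_iff_mem, map_sub, hv2, map_sum, sub_eq_zero, map_sum]
  exact Finset.sum_congr rfl fun a _ => rfl

end Pool.Agent.Work.MP_5fe04c_ag
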