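import Mathlib
import Pool.Agent.Work.MP_5fe04c_ag.Defs
import Pool.Agent.Work.MP_5fe04c_ag.Powers
import Pool.Agent.Work.MP_5fe04c_ag.Dims

namespace Pool.Agent.Work.MP_5fe04c_ag

open MvPowerSeries Finsupp

variable {k : Type*} [Field k]

/-- the exponent of `x^a y^b z^c` -/
noncomputable def ex (a b c : ℕ) : Fin 3 →₀ ℕ := Finsupp.equivFunOnFinite.symm ![a, b, c]

lemma ex_zero (a b c : ℕ) : ex a b c 0 = a := rfl
lemma ex_one (a b c : ℕ) : ex a b c 1 = b := rfl
lemma ex_two (a b c : ℕ) : ex a b c 2 = c := rfl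

lemma ex_degree (a b c : ℕ) : (ex a b c).degree = a + b + c := by
  rw [Finsupp.degree_eq_sum, Fin.sum_univ_three, ex_zero, ex_one, ex_two]

lemma ex_add (a b c a' b' c' : ℕ) : ex a b c + ex a' b' c' = ex (a + a') (b + b') (c + c') := by
  ext i
  fin_cases i <;> rfl

lemma ex_eta (d : Fin 3 →₀ ℕ) : d = ex (d 0) (d 1) (d 2) := by
  ext i
  fin_cases i <;> rfl

lemma ex_inj {a b c a' b' c' : ℕ} : ex a b c = ex a' b' c' ↔ a = a' ∧ b = b' ∧ c = c' := by
  constructor
  · intro h
    refine ⟨?_, ?_, ?_⟩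
    · rw [← ex_zero a b c, h, ex_zero]
    · rw [← ex_one a b c, h, ex_one]
    · rw [← ex_two a b c, h, ex_two]
  · rintro ⟨rfl, rfl, rfl⟩; rfl

/-- the monomial `x^a y^b z^c` -/
noncomputable def mo (k : Type*) [Field k] (a b c : ℕ) : PS k := monomial (ex a b c) (1 : k)

lemma mo_mul (a b c a' b' c' : ℕ) :
    mo k a b c * mo k a' b' c' = mo k (a + a') (b + b') (c + c') := by
  rw [mo, mo, monomial_mul_monomial, ex_add, one_mul, mo]

lemma mo_mem (a b c n : ℕ) (h : n ≤ a + b + c) : mo k a b c ∈ mm k ^ n := by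
  have h1 := monomial_mem_pow (k := k) (ex a b c)
  rw [ex_degree] at h1
  exact Ideal.pow_le_pow_right h h1

lemma disj (I : Ideal (PS k)) [Module.Finite k (PS k ⧸ I)]
    (hn : Module.finrank k (PS k ⧸ I) = 18) (hT : hilbertFn I = T0)
    (φ : PS k →ₗ[k] k) (hφ : ∀ f ∈ I, φ f = 0)
    (u v : Fin 3 → PS k) (hu : ∀ i, u i ∈ mm k ^ 2) (hv : ∀ i, v i ∈ mm k ^ 4)
    (hdet2 : (Matrix.of fun i j => φ (u i * v j)).det ≠ 0)
    (ψ : PS k →ₗ[k] k) (hψ : ∀ f ∈ I, ψ f = 0)
    (χ : Fin 12 → (PS k →ₗ[k] k)) (hχ : ∀ i, ∀ f ∈ I, χ i f = 0)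
    (p q : PS k) (hp : p ∈ mm k ^ 5) (hq : q ∈ mm k ^ 5)
    (l0 l1 l2 : k)
    (hl0 : l0 = ψ (mo k 0 1 0 * p) * ψ (mo k 0 0 1 * q) - ψ (mo k 0 0 1 * p) * ψ (mo k 0 1 0 * q))
    (hl1 : l1 = ψ (mo k 0 0 1 * p) * ψ (mo k 1 0 0 * q) - ψ (mo k 1 0 0 * p) * ψ (mo k 0 0 1 * q))
    (hl2 : l2 = ψ (mo k 1 0 0 * p) * ψ (mo k 0 1 0 * q) - ψ (mo k 0 1 0 * p) * ψ (mo k 1 0 0 * q))
    (l : PS k) (hl : l = l0 • mo k 1 0 0 + l1 • mo k 0 1 0 + l2 • mo k 0 0 1)
    (x z : PS k) (hx : x ∈ mm k ^ 1) (hz : z ∈ mm k ^ 1)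
    (s : Fin 10 → PS k) (hs : ∀ i, s i ∈ mm k ^ 3)
    (b : Fin 12 → PS k) (hb0 : b 0 = l * x) (hb1 : b 1 = l * z)
    (hb2 : ∀ i : Fin 10, b (i.succ.succ) = s i)
    (hdet1 : (Matrix.of fun i j => χ i (b j)).det ≠ 0) : False := by
  obtain ⟨d2, d3, d5, d6, d7⟩ := finrank_powImage I hn hT
  have h7 := pow_seven_le I d7
  have hle : ∀ i j, i ≤ j → powImage I j ≤ powImage I i := by
    intro i j hij a ha
    exact Ideal.map_mono (Ideal.pow_le_pow_right hij) ha
  have hX : ∀ a b c : ℕ, a + b + c = 1 → ∀ t ∈ mm k ^ 6, mo k a b c * t ∈ I := by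
    intro a b c habc t ht
    apply h7
    have : mm k ^ 7 = mm k ^ 1 * mm k ^ 6 := by rw [← pow_add]
    rw [this]
    exact Ideal.mul_mem_mul (mo_mem a b c 1 (by omega)) ht
  -- Step A
  have stepA : ∀ t ∈ mm k ^ 5, ψ (l * t) = 0 := by
    intro t ht
    obtain ⟨c, hc0, u', hu', w', hw', hrel⟩ := exists_relation I 5 6 3 (hle 5 6 (by norm_num))
      (by omega) ![p, q, t] (by
        intro a
        fin_cases a
        · exact hp
        · exact hq
        · exact ht)
    rw [Fin.sum_univ_three] at hrel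
    simp only [Matrix.cons_val_zero, Matrix.cons_val_one, Matrix.cons_val] at hrel
    have hj : ∀ a b e : ℕ, a + b + e = 1 → c 0 * ψ (mo k a b e * p) + c 1 * ψ (mo k a b e * q) +
        c 2 * ψ (mo k a b e * t) = 0 := by
      intro a b e habe
      have h1 : ψ (mo k a b e * (u' + w')) = 0 := by
        rw [mul_add, map_add, hψ _ (I.mul_mem_left _ hu'), hψ _ (hX a b e habe _ hw'), add_zero]
      rw [← hrel, mul_add, mul_add, mul_smul_comm, mul_smul_comm, mul_smul_comm, map_add, map_add,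
        map_smul, map_smul, map_smul] at h1
      simpa [smul_eq_mul] using h1
    have e0 := hj 1 0 0 rfl
    have e1 := hj 0 1 0 rfl
    have e2 := hj 0 0 1 rfl
    have hlt : ψ (l * t) = l0 * ψ (mo k 1 0 0 * t) + l1 * ψ (mo k 0 1 0 * t) +
        l2 * ψ (mo k 0 0 1 * t) := by
      rw [hl, add_mul, add_mul, smul_mul_assoc, smul_mul_assoc, smul_mul_assoc, map_add, map_add,
        map_smul, map_smul, map_smul]
      simp [smul_eq_mul]
    rw [hlt]
    set a0 := ψ (mo k 1 0 0 * p)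
    set a1 := ψ (mo k 0 1 0 * p)
    set a2 := ψ (mo k 0 0 1 * p)
    set b0 := ψ (mo k 1 0 0 * q)
    set b1 := ψ (mo k 0 1 0 * q)
    set b2 := ψ (mo k 0 0 1 * q)
    set t0 := ψ (mo k 1 0 0 * t)
    set t1 := ψ (mo k 0 1 0 * t)
    set t2 := ψ (mo k 0 0 1 * t)
    by_cases hc2 : c 2 = 0
    · rw [hc2] at e0 e1 e2
      simp only [zero_mul, add_zero] at e0 e1 e2
      have hc01 : c 0 ≠ 0 ∨ c 1 ≠ 0 := by
        by_contra hcon
        push Not at hcon
        apply hc0
        ext i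
        fin_cases i
        · exact hcon.1
        · exact hcon.2
        · exact hc2
      have z0 : l0 = 0 := by
        rw [hl0]
        rcases hc01 with h | h
        · apply (mul_eq_zero_iff_left h).mp
          linear_combination b2 * e1 - b1 * e2
        · apply (mul_eq_zero_iff_left h).mp
          linear_combination a1 * e2 - a2 * e1
      have z1 : l1 = 0 := by
        rw [hl1]
        rcases hc01 with h | h
        · apply (mul_eq_zero_iff_left h).mp
          linear_combination b0 * e2 - b2 * e0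
        · apply (mul_eq_zero_iff_left h).mp
          linear_combination a2 * e0 - a0 * e2
      have z2 : l2 = 0 := by
        rw [hl2]
        rcases hc01 with h | h
        · apply (mul_eq_zero_iff_left h).mp
          linear_combination b1 * e0 - b0 * e1
        · apply (mul_eq_zero_iff_left h).mp
          linear_combination a0 * e1 - a1 * e0
      rw [z0, z1, z2]; ring
    · have : c 2 * (l0 * t0 + l1 * t1 + l2 * t2) = 0 := by
        rw [hl0, hl1, hl2]
        linear_combination (a1 * b2 - a2 * b1) * e0 + (a2 * b0 - a0 * b2) * e1 +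
          (a0 * b1 - a1 * b0) * e2
      exact (mul_eq_zero_iff_left hc2).mp this
  -- Step B
  obtain ⟨s0, hs0, hψs0⟩ : ∃ s0 ∈ mm k ^ 6, ψ s0 ≠ 0 := by
    by_contra hcon
    push Not at hcon
    have hmul : ∀ a b e : ℕ, a + b + e = 1 → ∀ t ∈ mm k ^ 5, ψ (mo k a b e * t) = 0 := by
      intro a b e habe t ht
      apply hcon
      have : mm k ^ 6 = mm k ^ 1 * mm k ^ 5 := by rw [← pow_add]
      rw [this]
      exact Ideal.mul_mem_mul (mo_mem a b e 1 (by omega)) ht
    apply hdet1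
    apply Matrix.det_eq_zero_of_column_eq_zero 0
    intro i
    have z0 : l0 = 0 := by
      rw [hl0, hmul 0 1 0 rfl p hp, hmul 0 0 1 rfl p hp]; ring
    have z1 : l1 = 0 := by
      rw [hl1, hmul 0 0 1 rfl p hp, hmul 1 0 0 rfl p hp]; ring
    have z2 : l2 = 0 := by
      rw [hl2, hmul 1 0 0 rfl p hp, hmul 0 1 0 rfl p hp]; ring
    simp [hb0, hl, z0, z1, z2]
  -- Step C
  have stepC : ∀ t ∈ mm k ^ 6, ψ t = 0 → t ∈ I := by
    intro t ht hψt
    obtain ⟨c, hc0, u', hu', w', hw', hrel⟩ := exists_relation I 6 7 2 (hle 6 7 (by norm_num))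
      (by omega) ![s0, t] (by
        intro a
        fin_cases a
        · exact hs0
        · exact ht)
    rw [Fin.sum_univ_two] at hrel
    simp only [Matrix.cons_val_zero, Matrix.cons_val_one] at hrel
    have hmem : c 0 • s0 + c 1 • t ∈ I := by
      rw [hrel]
      exact I.add_mem hu' (h7 hw')
    have h1 := hψ _ hmem
    rw [map_add, map_smul, map_smul, hψt, smul_zero, add_zero, smul_eq_mul] at h1
    have hc00 : c 0 = 0 := by
      rcases mul_eq_zero.mp h1 with h | h
      · exact h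
      · exact absurd h hψs0
    have hc1 : c 1 ≠ 0 := by
      intro h
      apply hc0
      ext i
      fin_cases i
      · exact hc00
      · exact h
    rw [hc00, zero_smul, zero_add] at hmem
    have h2 : t = (c 1)⁻¹ • (c 1 • t) := by rw [smul_smul, inv_mul_cancel₀ hc1, one_smul]
    rw [h2, MvPowerSeries.smul_eq_C_mul]
    exact I.mul_mem_left _ hmem
  have hl1mem : l ∈ mm k ^ 1 := by
    rw [hl]
    have hsm : ∀ (r : k) (f : PS k), f ∈ mm k ^ 1 → r • f ∈ mm k ^ 1 := by
      intro r f hf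
      rw [MvPowerSeries.smul_eq_C_mul]
      exact Ideal.mul_mem_left _ _ hf
    exact Ideal.add_mem _ (Ideal.add_mem _ (hsm _ _ (mo_mem _ _ _ _ (by norm_num)))
      (hsm _ _ (mo_mem _ _ _ _ (by norm_num)))) (hsm _ _ (mo_mem _ _ _ _ (by norm_num)))
  -- Step D
  have stepD : ∀ t ∈ mm k ^ 5, l * t ∈ I := by
    intro t ht
    apply stepC _ _ (stepA t ht)
    have : mm k ^ 6 = mm k ^ 1 * mm k ^ 5 := by rw [← pow_add]
    rw [this]
    exact Ideal.mul_mem_mul hl1mem ht
  -- Step E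
  have hlx : ∀ y ∈ mm k ^ 1, l * y ∈ mm k ^ 2 := by
    intro y hy
    have : mm k ^ 2 = mm k ^ 1 * mm k ^ 1 := by rw [← pow_add]
    rw [this]
    exact Ideal.mul_mem_mul hl1mem hy
  obtain ⟨c, hc0, u', hu', w', hw', hrel⟩ := exists_relation I 2 3 5 (hle 2 3 (by norm_num))
    (by omega) ![u 0, u 1, u 2, l * x, l * z] (by
        intro a
        fin_cases a
        · exact hu 0
        · exact hu 1
        · exact hu 2
        · exact hlx x hx
        · exact hlx z hz)
  rw [Fin.sum_univ_five] at hrel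
  simp only [Matrix.cons_val_zero, Matrix.cons_val_one, Matrix.cons_val] at hrel
  have hc012 : (![c 0, c 1, c 2] : Fin 3 → k) = 0 := by
    apply Matrix.eq_zero_of_vecMul_eq_zero hdet2
    ext j
    have h1 : φ ((u' + w') * v j) = 0 := by
      rw [add_mul, map_add, hφ _ (I.mul_mem_right _ hu')]
      rw [hφ _ (h7 _), add_zero]
      have : mm k ^ 7 = mm k ^ 3 * mm k ^ 4 := by rw [← pow_add]
      rw [this]
      exact Ideal.mul_mem_mul hw' (hv j)
    have hz' : ∀ y ∈ mm k ^ 1, φ (l * y * v j) = 0 := by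
      intro y hy
      apply hφ
      rw [mul_assoc]
      apply stepD
      have : mm k ^ 5 = mm k ^ 1 * mm k ^ 4 := by rw [← pow_add]
      rw [this]
      exact Ideal.mul_mem_mul hy (hv j)
    rw [← hrel] at h1
    simp only [add_mul, smul_mul_assoc, map_add, map_smul, hz' x hx, hz' z hz,
      smul_eq_mul, mul_zero, add_zero] at h1
    simp only [Matrix.vecMul, dotProduct, Fin.sum_univ_three, Matrix.of_apply,
      Matrix.cons_val_zero, Matrix.cons_val_one, Matrix.cons_val, Pi.zero_apply]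
    exact h1
  have c0 : c 0 = 0 := congrFun hc012 0
  have c1 : c 1 = 0 := congrFun hc012 1
  have c2 : c 2 = 0 := congrFun hc012 2
  rw [c0, c1, c2, zero_smul, zero_smul, zero_smul, zero_add, zero_add, zero_add] at hrel
  -- Step F
  obtain ⟨e, he0, u'', hu'', w'', hw'', hrel2⟩ := exists_relation I 3 7 11
    (hle 3 7 (by norm_num)) (by omega) (Fin.cons w' s) (by
      intro a
      refine Fin.cases ?_ ?_ a
      · exact hw'
      · intro i
        exact hs i)
  rw [Fin.sum_univ_succ] at hrel2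
  simp only [Fin.cons_zero, Fin.cons_succ] at hrel2
  have hmem : e 0 • (c 3 • (l * x) + c 4 • (l * z)) + ∑ i : Fin 10, e i.succ • s i ∈ I := by
    rw [hrel]
    have : e 0 • (u' + w') + ∑ i : Fin 10, e i.succ • s i = e 0 • u' + (u'' + w'') := by
      rw [← hrel2, smul_add]; ring
    rw [this]
    refine I.add_mem ?_ (I.add_mem hu'' (h7 hw''))
    rw [MvPowerSeries.smul_eq_C_mul]
    exact I.mul_mem_left _ hu'
  have hvec : (Fin.cons (e 0 * c 3) (Fin.cons (e 0 * c 4) (fun i : Fin 10 => e i.succ)) :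
      Fin 12 → k) = 0 := by
    apply Matrix.eq_zero_of_mulVec_eq_zero hdet1
    ext i
    have h1 := hχ i _ hmem
    simp only [map_add, map_smul, smul_add, smul_smul, map_sum, smul_eq_mul] at h1
    rw [Matrix.mulVec, dotProduct, Fin.sum_univ_succ, Fin.sum_univ_succ]
    have hb1' : b (Fin.succ 0) = l * z := hb1
    simp only [Matrix.of_apply, Fin.cons_zero, Fin.cons_succ, hb0, hb1', hb2, Pi.zero_apply]
    rw [← h1, ← add_assoc]
    congr 1
    · ring
    · exact Finset.sum_congr rfl fun j _ => mul_comm _ _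
  have f0 : e 0 * c 3 = 0 := congrFun hvec 0
  have f1 : e 0 * c 4 = 0 := congrFun hvec 1
  have f2 : ∀ i : Fin 10, e i.succ = 0 := fun i => congrFun hvec i.succ.succ
  have he00 : e 0 ≠ 0 := by
    intro h
    apply he0
    ext i
    refine Fin.cases h ?_ i
    intro j
    exact f2 j
  have c3 : c 3 = 0 := (mul_eq_zero_iff_left he00).mp f0
  have c4 : c 4 = 0 := (mul_eq_zero_iff_left he00).mp f1
  apply hc0
  ext i
  fin_cases i
  · exact c0
  · exact c1
  · exact c2
  · exact c3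
  · exact c4

end Pool.Agent.Work.MP_5fe04c_ag
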