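import Mathlib
import Pool.Agent.Work.MP_5fe04c_ag.Defs
import Pool.Agent.Work.MP_5fe04c_ag.Powers
import Pool.Agent.Work.MP_5fe04c_ag.Dims

namespace Pool.Agent.Work.MP_5fe04c_ag

open MvPowerSeries Finsupp

variable {k : Type*} [Field k]

/-- A presentation of `R/I` by an explicit monomial basis. -/
structure Pres (I : Ideal (PS k)) (n : ℕ) where
  /-- the basis exponents -/
  B : Fin n → (Fin 3 →₀ ℕ)
  /-- the coordinate map -/
  L : PS k →ₗ[k] (Fin n → k)
  hLB : ∀ t, L (monomial (B t) (1 : k)) = Pi.single t 1
  hLpow : ∀ i, ∀ f ∈ mm k ^ i, ∀ s, (B s).degree < i → L f s = 0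
  hLI : ∀ f ∈ I, L f = 0
  hIL : ∀ f, L f = 0 → f ∈ I

namespace Pres

variable {I : Ideal (PS k)} {n : ℕ} (P : Pres I n)

/-- the induced isomorphism `R/I ≃ k^n` -/
noncomputable def equiv : (PS k ⧸ I) ≃ₗ[k] (Fin n → k) := by
  have hker : LinearMap.ker P.L = I.restrictScalars k := by
    ext f
    exact ⟨fun h => P.hIL f h, fun h => P.hLI f h⟩
  have hsurj : Function.Surjective P.L := by
    intro w
    refine ⟨∑ s, w s • monomial (P.B s) (1 : k), ?_⟩
    rw [map_sum]
    ext t
    simp [P.hLB, Finset.sum_apply, Pi.single_apply]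
  exact (Submodule.quotEquivOfEq (I.restrictScalars k) (LinearMap.ker P.L) hker.symm).trans
    (P.L.quotKerEquivOfSurjective hsurj)

lemma equiv_mk (f : PS k) : P.equiv (Ideal.Quotient.mk I f) = P.L f := rfl

include P in
lemma finite : Module.Finite k (PS k ⧸ I) := Module.Finite.equiv P.equiv.symm

include P in
lemma finrank_quot : Module.finrank k (PS k ⧸ I) = n := by
  rw [P.equiv.finrank_eq]; simp

/-- coordinates of degree at least `i` -/
lemma finrank_powImage (i : ℕ) : Module.finrank k (powImage I i) =
    (Finset.univ.filter (fun s => i ≤ (P.B s).degree)).card := by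
  classical
  -- the subspace of vectors supported on coordinates of degree ≥ i
  let S : Set (Fin n) := {s | i ≤ (P.B s).degree}
  have h1 : (powImage I i).map P.equiv.toLinearMap =
      Submodule.span k (Set.range (fun s : {s // i ≤ (P.B s).degree} =>
        (Pi.single s.1 (1 : k) : Fin n → k))) := by
    apply le_antisymm
    · rintro _ ⟨a, ha, rfl⟩
      obtain ⟨f, hf, rfl⟩ := exists_of_mem_powImage ha
      have h2 : P.equiv.toLinearMap (Ideal.Quotient.mk I f) = P.L f := P.equiv_mk f
      rw [h2]
      have h3 : P.L f = ∑ s : Fin n, P.L f s • (Pi.single s (1 : k) : Fin n → k) := by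
        ext t
        simp [Finset.sum_apply, Pi.single_apply]
      rw [h3]
      apply Submodule.sum_mem
      intro s _
      by_cases hs : i ≤ (P.B s).degree
      · exact Submodule.smul_mem _ _ (Submodule.subset_span ⟨⟨s, hs⟩, rfl⟩)
      · rw [P.hLpow i f hf s (not_le.mp hs), zero_smul]
        exact Submodule.zero_mem _
    · rw [Submodule.span_le]
      rintro _ ⟨⟨s, hs⟩, rfl⟩
      refine ⟨Ideal.Quotient.mk I (monomial (P.B s) 1), mem_powImage ?_, ?_⟩
      · exact Ideal.pow_le_pow_right hs (monomial_mem_pow _)
      · exact (P.equiv_mk _).trans (P.hLB s)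
  have h4 : Module.finrank k (powImage I i) =
      Module.finrank k ((powImage I i).map P.equiv.toLinearMap) :=
    (LinearEquiv.finrank_eq (P.equiv.submoduleMap (powImage I i)))
  rw [h4, h1, finrank_span_eq_card, Fintype.card_subtype]
  have h5 : LinearIndependent k (fun s : Fin n => (Pi.single s (1 : k) : Fin n → k)) := by
    have := (Pi.basisFun k (Fin n)).linearIndependent
    convert this using 1
    ext s
    simp
  exact h5.comp _ Subtype.val_injective

lemma hilbertFn_eq (i : ℕ) : hilbertFn I i =
    (Finset.univ.filter (fun s => (P.B s).degree = i)).card := by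
  classical
  have := P.finite
  have h := hilbert_add I i
  rw [P.finrank_powImage, P.finrank_powImage] at h
  have h2 : (Finset.univ.filter (fun s => i ≤ (P.B s).degree)).card =
      (Finset.univ.filter (fun s => (P.B s).degree = i)).card +
      (Finset.univ.filter (fun s => i + 1 ≤ (P.B s).degree)).card := by
    rw [← Finset.card_union_of_disjoint]
    · congr 1
      ext s
      simp only [Finset.mem_filter, Finset.mem_univ, true_and, Finset.mem_union]
      omega
    · rw [Finset.disjoint_left]
      intro s
      simp only [Finset.mem_filter, Finset.mem_univ, true_and]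
      omega
  omega

end Pres

/-- Membership in an ideal which contains all the differences `x^d - ∑ L(x^d)_s x^(B s)`
and a power of the maximal ideal. -/
lemma mem_of_monomials {n : ℕ} (I : Ideal (PS k)) (B : Fin n → (Fin 3 →₀ ℕ))
    (L : PS k →ₗ[k] (Fin n → k)) (N : ℕ)
    (hN : ∀ d : Fin 3 →₀ ℕ, d.degree = N → monomial d (1 : k) ∈ I)
    (hLI : ∀ f ∈ I, L f = 0)
    (hd : ∀ d : Fin 3 →₀ ℕ, d.degree < N →
      monomial d (1 : k) - ∑ s, L (monomial d (1 : k)) s • monomial (B s) (1 : k) ∈ I)
    (f : PS k) (hf : L f = 0) : f ∈ I := by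
  -- truncation
  have h1 : f - ((truncTotal N f : MvPolynomial (Fin 3) k) : PS k) ∈ I := by
    apply mem_of_coeff N I hN
    intro d hdN
    rw [map_sub, MvPolynomial.coeff_coe, coeff_truncTotal _ hdN, sub_self]
  have hsm : ∀ (r : k) (g : PS k), g ∈ I → r • g ∈ I := by
    intro r g hg
    rw [MvPowerSeries.smul_eq_C_mul]
    exact I.mul_mem_left _ hg
  have h2 : ∀ p : MvPolynomial (Fin 3) k, (∀ d, p.coeff d ≠ 0 → d.degree < N) →
      (p : PS k) - ∑ s, L (p : PS k) s • monomial (B s) (1 : k) ∈ I := by
    intro p hp
    have hsum : (p : PS k) = ∑ d ∈ p.support, p.coeff d • monomial d (1 : k) := by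
      ext e
      rw [MvPolynomial.coeff_coe, map_sum]
      simp only [map_smul, smul_eq_mul]
      classical
      simp only [coeff_monomial, mul_ite, mul_one, mul_zero, Finset.sum_ite_eq]
      split_ifs with h
      · rfl
      · exact MvPolynomial.notMem_support_iff.mp h
    have hL : ∀ s, L (p : PS k) s = ∑ d ∈ p.support, p.coeff d * L (monomial d (1 : k)) s := by
      intro s
      rw [hsum, map_sum, Finset.sum_apply]
      simp
    have : (p : PS k) - ∑ s, L (p : PS k) s • monomial (B s) (1 : k) =
        ∑ d ∈ p.support, p.coeff d •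
          (monomial d (1 : k) - ∑ s, L (monomial d (1 : k)) s • monomial (B s) (1 : k)) := by
      simp only [smul_sub, Finset.sum_sub_distrib, Finset.smul_sum, smul_smul]
      rw [← hsum]
      congr 1
      simp only [hL, Finset.sum_smul]
      rw [Finset.sum_comm]
    rw [this]
    apply I.sum_mem
    intro d hdp
    apply hsm
    exact hd d (hp d (MvPolynomial.mem_support_iff.mp hdp))
  have h3 := h2 (truncTotal N f) (by
    intro d hne
    by_contra hcon
    exact hne (coeff_truncTotal_eq_zero _ (not_lt.mp hcon)))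
  have h4 : L ((truncTotal N f : MvPolynomial (Fin 3) k) : PS k) = 0 := by
    have := hLI _ h1
    rw [map_sub, hf, zero_sub, neg_eq_zero] at this
    exact this
  rw [h4] at h3
  simp only [Pi.zero_apply, zero_smul, Finset.sum_const_zero, sub_zero] at h3
  have h5 := I.add_mem h1 h3
  rwa [sub_add_cancel] at h5

end Pool.Agent.Work.MP_5fe04c_ag
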