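import Mathlib
import Pool.Agent.Work.MP_5fe04c_ag.Defs
import Pool.Agent.Work.MP_5fe04c_ag.Powers
import Pool.Agent.Work.MP_5fe04c_ag.Dims
import Pool.Agent.Work.MP_5fe04c_ag.Disj
import Pool.Agent.Work.MP_5fe04c_ag.Present

namespace Pool.Agent.Work.MP_5fe04c_ag

open MvPowerSeries Finsupp

variable (k : Type*) [Field k]

/-- exponent triples -/
noncomputable def exx (t : ℕ × ℕ × ℕ) : Fin 3 →₀ ℕ := ex t.1 t.2.1 t.2.2

lemma exx_inj {s t : ℕ × ℕ × ℕ} : exx s = exx t ↔ s = t := by
  rw [exx, exx, ex_inj]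
  constructor
  · rintro ⟨h1, h2, h3⟩
    exact Prod.ext h1 (Prod.ext h2 h3)
  · rintro rfl; exact ⟨rfl, rfl, rfl⟩

lemma exx_degree (t : ℕ × ℕ × ℕ) : (exx t).degree = t.1 + t.2.1 + t.2.2 := ex_degree _ _ _

lemma ex_le {a b c a' b' c' : ℕ} : ex a b c ≤ ex a' b' c' ↔ a ≤ a' ∧ b ≤ b' ∧ c ≤ c' := by
  constructor
  · intro h
    exact ⟨h 0, h 1, h 2⟩
  · rintro ⟨h0, h1, h2⟩ i
    fin_cases i
    · exact h0
    · exact h1
    · exact h2

lemma ex_sub (a b c a' b' c' : ℕ) : ex a b c - ex a' b' c' = ex (a - a') (b - b') (c - c') := by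
  ext i
  fin_cases i <;> rfl

lemma coeff_mul_mo (a b c a' b' c' : ℕ) (r : PS k) : coeff (ex a b c) (r * mo k a' b' c') =
    if a' ≤ a ∧ b' ≤ b ∧ c' ≤ c then coeff (ex (a - a') (b - b') (c - c')) r else 0 := by
  rw [mo, coeff_mul_monomial]
  simp only [ex_le, ex_sub, mul_one]

lemma coeff_mo (a b c a' b' c' : ℕ) : coeff (ex a b c) (mo k a' b' c') =
    if a = a' ∧ b = b' ∧ c = c' then 1 else 0 := by
  classical
  rw [mo, coeff_monomial]
  simp only [ex_inj]

/-- the basis of the first example -/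
def b1 : Fin 18 → ℕ × ℕ × ℕ := ![(0,0,0), (1,0,0), (0,1,0), (0,0,1), (2,0,0), (0,2,0), (1,0,1),
  (0,1,1), (3,0,0), (0,3,0), (2,0,1), (0,2,1), (0,4,0), (3,0,1), (0,3,1), (0,5,0), (0,4,1),
  (0,5,1)]

/-- the second monomials occurring in the coordinates -/
def b1' : Fin 18 → ℕ × ℕ × ℕ := fun s => if s = 15 then (4,0,0) else if s = 17 then (4,0,1)
  else b1 s

/-- the coefficient of the second monomial -/
def c1 : Fin 18 → k := fun s => if s = 15 ∨ s = 17 then -1 else 0

/-- the coordinate map of the first example -/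
noncomputable def L1 : PS k →ₗ[k] (Fin 18 → k) :=
  LinearMap.pi fun s => coeff (exx (b1 s)) + c1 k s • coeff (exx (b1' s))

lemma L1_apply (f : PS k) (s : Fin 18) :
    L1 k f s = coeff (exx (b1 s)) f + c1 k s * coeff (exx (b1' s)) f := rfl

/-- the first example `(xy, z^2, x^4 + y^5)` -/
noncomputable def I1 : Ideal (PS k) := Ideal.span {mo k 1 1 0, mo k 0 0 2, mo k 4 0 0 + mo k 0 5 0}

lemma L1_I1 (f : PS k) (hf : f ∈ I1 k) : L1 k f = 0 := by
  have key : ∀ f ∈ I1 k, ∀ r : PS k, L1 k (r * f) = 0 := by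
    intro f hf
    refine Submodule.span_induction ?_ ?_ ?_ ?_ hf
    · intro g hg r
      have hg' : g = mo k 1 1 0 ∨ g = mo k 0 0 2 ∨ g = mo k 4 0 0 + mo k 0 5 0 := by
        simpa using hg
      ext s
      rw [L1_apply, Pi.zero_apply]
      rcases hg' with rfl | rfl | rfl
      · simp only [exx, coeff_mul_mo]
        fin_cases s <;> simp [b1, b1', c1]
      · simp only [exx, coeff_mul_mo]
        fin_cases s <;> simp [b1, b1', c1]
      · simp only [exx, mul_add, map_add, coeff_mul_mo]
        fin_cases s <;> simp [b1, b1', c1]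
    · intro r; simp
    · intro a b _ _ ha hb r
      rw [mul_add, map_add, ha, hb, add_zero]
    · intro a b _ hb r
      rw [smul_eq_mul, ← mul_assoc]
      exact hb _
  have := key f hf 1
  rwa [one_mul] at this

lemma mo_mem_I1 (a b c : ℕ) : mo k a b c ∈ I1 k ∨ (c < 2 ∧ a < 5 ∧ b < 6 ∧ (a = 0 ∨ b = 0)) := by
  have g1 : mo k 1 1 0 ∈ I1 k := Ideal.subset_span (by simp)
  have g2 : mo k 0 0 2 ∈ I1 k := Ideal.subset_span (by simp)
  have g3 : mo k 4 0 0 + mo k 0 5 0 ∈ I1 k := Ideal.subset_span (by simp)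
  have g4 : mo k 5 0 0 ∈ I1 k := by
    have : mo k 5 0 0 = mo k 1 0 0 * (mo k 4 0 0 + mo k 0 5 0) - mo k 0 4 0 * mo k 1 1 0 := by
      rw [mul_add, mo_mul, mo_mul, mo_mul]; ring
    rw [this]
    exact (I1 k).sub_mem ((I1 k).mul_mem_left _ g3) ((I1 k).mul_mem_left _ g1)
  have g5 : mo k 0 6 0 ∈ I1 k := by
    have : mo k 0 6 0 = mo k 0 1 0 * (mo k 4 0 0 + mo k 0 5 0) - mo k 3 0 0 * mo k 1 1 0 := by
      rw [mul_add, mo_mul, mo_mul, mo_mul]; ring
    rw [this]
    exact (I1 k).sub_mem ((I1 k).mul_mem_left _ g3) ((I1 k).mul_mem_left _ g1)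
  have red : ∀ a' b' c' : ℕ, mo k a' b' c' ∈ I1 k → a' ≤ a → b' ≤ b → c' ≤ c →
      mo k a b c ∈ I1 k := by
    intro a' b' c' h ha hb hc
    have : mo k a b c = mo k (a - a') (b - b') (c - c') * mo k a' b' c' := by
      rw [mo_mul, Nat.sub_add_cancel ha, Nat.sub_add_cancel hb, Nat.sub_add_cancel hc]
    rw [this]
    exact (I1 k).mul_mem_left _ h
  by_cases h1 : 2 ≤ c
  · exact Or.inl (red 0 0 2 g2 (by omega) (by omega) h1)
  by_cases h2 : 1 ≤ a ∧ 1 ≤ b
  · exact Or.inl (red 1 1 0 g1 h2.1 h2.2 (by omega))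
  by_cases h3 : 5 ≤ a
  · exact Or.inl (red 5 0 0 g4 h3 (by omega) (by omega))
  by_cases h4 : 6 ≤ b
  · exact Or.inl (red 0 6 0 g5 (by omega) h4 (by omega))
  right
  omega

lemma L1_basis (t : Fin 18) : L1 k (monomial (exx (b1 t)) (1 : k)) = Pi.single t 1 := by
  classical
  ext s
  rw [L1_apply, coeff_monomial, coeff_monomial, Pi.single_apply]
  have h1 : exx (b1 s) = exx (b1 t) ↔ s = t := by
    rw [exx_inj]
    revert s t; decide
  by_cases hs : s = 15 ∨ s = 17
  · have h2 : ¬ (exx (b1' s) = exx (b1 t)) := by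
      rw [exx_inj]
      clear h1
      revert s t; decide
    rw [if_neg h2]
    simp [h1]
  · rw [c1, if_neg hs]
    simp [h1]

/-- the presentation of the first example -/
noncomputable def pres1 : Pres (I1 k) 18 where
  B := fun s => exx (b1 s)
  L := L1 k
  hLB := L1_basis k
  hLpow := by
    intro i f hf s hs
    rw [L1_apply, coeff_of_mem_pow hf hs, coeff_of_mem_pow hf (d := exx (b1' s)), mul_zero,
      add_zero]
    refine lt_of_le_of_lt ?_ hs
    rw [exx_degree, exx_degree]
    clear hs hf f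
    revert s; decide
  hLI := L1_I1 k
  hIL := by
    apply mem_of_monomials (I1 k) (fun s => exx (b1 s)) (L1 k) 7
    · intro d hd
      rw [ex_eta d] at hd ⊢
      rw [ex_degree] at hd
      rcases mo_mem_I1 k (d 0) (d 1) (d 2) with h | h
      · exact h
      · omega
    · exact L1_I1 k
    · intro d _
      rw [ex_eta d]
      rcases mo_mem_I1 k (d 0) (d 1) (d 2) with h | h
      · have h0 : L1 k (monomial (ex (d 0) (d 1) (d 2)) 1) = 0 := L1_I1 k _ h
        rw [h0]
        simpa [mo] using h
      · -- either in the basis or the exceptional monomials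
        have hcase : (∃ t, (d 0, d 1, d 2) = b1 t) ∨ (d 0, d 1, d 2) = (4, 0, 0) ∨
            (d 0, d 1, d 2) = (4, 0, 1) := by
          obtain ⟨hc, ha, hb, hab⟩ := h
          generalize d 0 = a at *
          generalize d 1 = b at *
          generalize d 2 = c at *
          rcases hab with rfl | rfl
          · interval_cases b <;> interval_cases c <;> decide
          · interval_cases a <;> interval_cases c <;> decide
        rcases hcase with ⟨t, ht⟩ | h4 | h4
        · have e : ex (d 0) (d 1) (d 2) = exx (b1 t) := by rw [← ht]; rfl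
          rw [e, L1_basis]
          simp [Pi.single_apply]
        · have e : ex (d 0) (d 1) (d 2) = ex 4 0 0 := by
            rw [ex_inj]; simpa using h4
          rw [e]
          have hL : ∀ s, L1 k (monomial (ex 4 0 0) 1) s = if s = 15 then -1 else 0 := by
            intro s
            have := coeff_mo k
            rw [L1_apply]
            simp only [mo] at this
            simp only [exx, this]
            fin_cases s <;> simp [b1, b1', c1]
          simp only [hL]
          simp only [ite_smul, neg_smul, one_smul, zero_smul, Finset.sum_ite_eq', Finset.mem_univ,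
            if_true, sub_neg_eq_add]
          exact Ideal.subset_span (by simp [mo, exx, b1])
        · have e : ex (d 0) (d 1) (d 2) = ex 4 0 1 := by
            rw [ex_inj]; simpa using h4
          rw [e]
          have hL : ∀ s, L1 k (monomial (ex 4 0 1) 1) s = if s = 17 then -1 else 0 := by
            intro s
            have := coeff_mo k
            rw [L1_apply]
            simp only [mo] at this
            simp only [exx, this]
            fin_cases s <;> simp [b1, b1', c1]
          simp only [hL]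
          simp only [ite_smul, neg_smul, one_smul, zero_smul, Finset.sum_ite_eq', Finset.mem_univ,
            if_true, sub_neg_eq_add]
          have h5 : (monomial (ex 4 0 1) (1 : k) : PS k) + monomial (exx (b1 17)) (1 : k) =
              mo k 0 0 1 * (mo k 4 0 0 + mo k 0 5 0) := by
            rw [mul_add, mo_mul, mo_mul]
            rfl
          rw [h5]
          exact (I1 k).mul_mem_left _ (Ideal.subset_span (by simp))

lemma hilbert_I1 : hilbertFn (I1 k) = T0 := by
  funext i
  rw [(pres1 k).hilbertFn_eq]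
  have h : ∀ s, ((pres1 k).B s).degree = (b1 s).1 + (b1 s).2.1 + (b1 s).2.2 := fun s =>
    exx_degree _
  simp only [h]
  by_cases hi : i < 7
  · interval_cases i <;> decide
  · have h1 : T0 i = 0 := by
      simp only [T0]
      rw [List.getD_eq_default]
      simpa using hi
    rw [h1, Finset.card_eq_zero, Finset.filter_eq_empty_iff]
    intro s _
    have : (b1 s).1 + (b1 s).2.1 + (b1 s).2.2 < 7 := by revert s; decide
    omega

/-- the first point of `CI(T0)` -/
noncomputable def pt1 : Hilb k 18 := ⟨I1 k, (pres1 k).finite, (pres1 k).finrank_quot⟩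

lemma pt1_mem : pt1 k ∈ CI k 18 T0 := ⟨hilbert_I1 k, _, _, _, rfl⟩

end Pool.Agent.Work.MP_5fe04c_ag
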