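import Mathlib
import Pool.Agent.Work.MP_5fe04c_ag.Ex1

namespace Pool.Agent.Work.MP_5fe04c_ag

open MvPowerSeries Finsupp

variable (k : Type*) [Field k]

/-- the basis of the second example -/
def b2 : Fin 18 → ℕ × ℕ × ℕ := ![(0,0,0), (1,0,0), (0,1,0), (0,0,1), (2,0,0), (1,0,1), (0,1,1),
  (0,0,2), (3,0,0), (2,0,1), (1,0,2), (0,1,2), (4,0,0), (3,0,1), (2,0,2), (4,0,1), (3,0,2),
  (4,0,2)]

/-- the second monomials occurring in the coordinates -/
def b2' : Fin 18 → ℕ × ℕ × ℕ := fun s => if s = 12 then (0,2,0) else if s = 15 then (0,2,1)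
  else if s = 17 then (0,2,2) else b2 s

/-- the coefficient of the second monomial -/
def c2 : Fin 18 → k := fun s => if s = 12 ∨ s = 15 ∨ s = 17 then 1 else 0

/-- the coordinate map of the second example -/
noncomputable def L2 : PS k →ₗ[k] (Fin 18 → k) :=
  LinearMap.pi fun s => coeff (exx (b2 s)) + c2 k s • coeff (exx (b2' s))

lemma L2_apply (f : PS k) (s : Fin 18) :
    L2 k f s = coeff (exx (b2 s)) f + c2 k s * coeff (exx (b2' s)) f := rfl

/-- the second example `(xy, y^2 - x^4, z^3)` -/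
noncomputable def I2 : Ideal (PS k) := Ideal.span {mo k 1 1 0, mo k 0 2 0 - mo k 4 0 0, mo k 0 0 3}

lemma L2_I2 (f : PS k) (hf : f ∈ I2 k) : L2 k f = 0 := by
  have key : ∀ f ∈ I2 k, ∀ r : PS k, L2 k (r * f) = 0 := by
    intro f hf
    refine Submodule.span_induction ?_ ?_ ?_ ?_ hf
    · intro g hg r
      have hg' : g = mo k 1 1 0 ∨ g = mo k 0 2 0 - mo k 4 0 0 ∨ g = mo k 0 0 3 := by
        simpa using hg
      ext s
      rw [L2_apply, Pi.zero_apply]
      rcases hg' with rfl | rfl | rfl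
      · simp only [exx, coeff_mul_mo]
        fin_cases s <;> simp [b2, b2', c2]
      · simp only [exx, mul_sub, map_sub, coeff_mul_mo]
        fin_cases s <;> simp [b2, b2', c2]
      · simp only [exx, coeff_mul_mo]
        fin_cases s <;> simp [b2, b2', c2]
    · intro r; simp
    · intro a b _ _ ha hb r
      rw [mul_add, map_add, ha, hb, add_zero]
    · intro a b _ hb r
      rw [smul_eq_mul, ← mul_assoc]
      exact hb _
  have := key f hf 1
  rwa [one_mul] at this

lemma mo_mem_I2 (a b c : ℕ) : mo k a b c ∈ I2 k ∨ (c < 3 ∧ a < 5 ∧ b < 3 ∧ (a = 0 ∨ b = 0)) := by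
  have g1 : mo k 1 1 0 ∈ I2 k := Ideal.subset_span (by simp)
  have g2 : mo k 0 0 3 ∈ I2 k := Ideal.subset_span (by simp)
  have g3 : mo k 0 2 0 - mo k 4 0 0 ∈ I2 k := Ideal.subset_span (by simp)
  have g4 : mo k 5 0 0 ∈ I2 k := by
    have : mo k 5 0 0 = mo k 0 1 0 * mo k 1 1 0 - mo k 1 0 0 * (mo k 0 2 0 - mo k 4 0 0) := by
      rw [mul_sub, mo_mul, mo_mul, mo_mul]; ring
    rw [this]
    exact (I2 k).sub_mem ((I2 k).mul_mem_left _ g1) ((I2 k).mul_mem_left _ g3)
  have g5 : mo k 0 3 0 ∈ I2 k := by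
    have : mo k 0 3 0 = mo k 0 1 0 * (mo k 0 2 0 - mo k 4 0 0) + mo k 3 0 0 * mo k 1 1 0 := by
      rw [mul_sub, mo_mul, mo_mul, mo_mul]; ring
    rw [this]
    exact (I2 k).add_mem ((I2 k).mul_mem_left _ g3) ((I2 k).mul_mem_left _ g1)
  have red : ∀ a' b' c' : ℕ, mo k a' b' c' ∈ I2 k → a' ≤ a → b' ≤ b → c' ≤ c →
      mo k a b c ∈ I2 k := by
    intro a' b' c' h ha hb hc
    have : mo k a b c = mo k (a - a') (b - b') (c - c') * mo k a' b' c' := by
      rw [mo_mul, Nat.sub_add_cancel ha, Nat.sub_add_cancel hb, Nat.sub_add_cancel hc]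
    rw [this]
    exact (I2 k).mul_mem_left _ h
  by_cases h1 : 3 ≤ c
  · exact Or.inl (red 0 0 3 g2 (by omega) (by omega) h1)
  by_cases h2 : 1 ≤ a ∧ 1 ≤ b
  · exact Or.inl (red 1 1 0 g1 h2.1 h2.2 (by omega))
  by_cases h3 : 5 ≤ a
  · exact Or.inl (red 5 0 0 g4 h3 (by omega) (by omega))
  by_cases h4 : 3 ≤ b
  · exact Or.inl (red 0 3 0 g5 (by omega) h4 (by omega))
  right
  omega

lemma L2_basis (t : Fin 18) : L2 k (monomial (exx (b2 t)) (1 : k)) = Pi.single t 1 := by
  classical
  ext s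
  rw [L2_apply, coeff_monomial, coeff_monomial, Pi.single_apply]
  have h1 : exx (b2 s) = exx (b2 t) ↔ s = t := by
    rw [exx_inj]
    revert s t; decide
  by_cases hs : s = 12 ∨ s = 15 ∨ s = 17
  · have h2 : ¬ (exx (b2' s) = exx (b2 t)) := by
      rw [exx_inj]
      clear h1
      revert s t; decide
    rw [if_neg h2]
    simp [h1]
  · rw [c2, if_neg hs]
    simp [h1]

/-- the exceptional monomials `y^2 z^c` of the second example -/
lemma exc2 (c : ℕ) (s0 : Fin 18) (hs0 : (s0 = 12 ∧ c = 0) ∨ (s0 = 15 ∧ c = 1) ∨ (s0 = 17 ∧ c = 2)) :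
    monomial (ex 0 2 c) (1 : k) - ∑ s, L2 k (monomial (ex 0 2 c) (1 : k)) s •
      monomial (exx (b2 s)) (1 : k) ∈ I2 k := by
  have hL : ∀ s, L2 k (monomial (ex 0 2 c) 1) s = if s = s0 then 1 else 0 := by
    intro s
    have := coeff_mo k
    rw [L2_apply]
    simp only [mo] at this
    simp only [exx, this]
    rcases hs0 with ⟨rfl, rfl⟩ | ⟨rfl, rfl⟩ | ⟨rfl, rfl⟩ <;>
    fin_cases s <;> simp [b2, b2', c2]
  have hb : b2 s0 = (4, 0, c) := by
    rcases hs0 with ⟨rfl, rfl⟩ | ⟨rfl, rfl⟩ | ⟨rfl, rfl⟩ <;> rfl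
  simp only [hL]
  simp only [ite_smul, one_smul, zero_smul, Finset.sum_ite_eq', Finset.mem_univ, if_true]
  rw [hb]
  have h5 : (monomial (ex 0 2 c) (1 : k) : PS k) - monomial (exx (4, 0, c)) (1 : k) =
      mo k 0 0 c * (mo k 0 2 0 - mo k 4 0 0) := by
    rw [mul_sub, mo_mul, mo_mul]
    simp [mo, exx]
  rw [h5]
  exact (I2 k).mul_mem_left _ (Ideal.subset_span (by simp))

/-- the presentation of the second example -/
noncomputable def pres2 : Pres (I2 k) 18 where
  B := fun s => exx (b2 s)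
  L := L2 k
  hLB := L2_basis k
  hLpow := by
    intro i f hf s hs
    rw [L2_apply, coeff_of_mem_pow hf hs, coeff_of_mem_pow hf (d := exx (b2' s)), mul_zero,
      add_zero]
    refine lt_of_le_of_lt ?_ hs
    rw [exx_degree, exx_degree]
    clear hs hf f
    revert s; decide
  hLI := L2_I2 k
  hIL := by
    apply mem_of_monomials (I2 k) (fun s => exx (b2 s)) (L2 k) 7
    · intro d hd
      rw [ex_eta d] at hd ⊢
      rw [ex_degree] at hd
      rcases mo_mem_I2 k (d 0) (d 1) (d 2) with h | h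
      · exact h
      · omega
    · exact L2_I2 k
    · intro d _
      rw [ex_eta d]
      rcases mo_mem_I2 k (d 0) (d 1) (d 2) with h | h
      · have h0 : L2 k (monomial (ex (d 0) (d 1) (d 2)) 1) = 0 := L2_I2 k _ h
        rw [h0]
        simpa [mo] using h
      · -- either in the basis or the exceptional monomials
        have hcase : (∃ t, (d 0, d 1, d 2) = b2 t) ∨ (d 0, d 1, d 2) = (0, 2, 0) ∨
            (d 0, d 1, d 2) = (0, 2, 1) ∨ (d 0, d 1, d 2) = (0, 2, 2) := by
          obtain ⟨hc, ha, hb, hab⟩ := h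
          generalize d 0 = a at *
          generalize d 1 = b at *
          generalize d 2 = c at *
          rcases hab with rfl | rfl
          · interval_cases b <;> interval_cases c <;> decide
          · interval_cases a <;> interval_cases c <;> decide
        rcases hcase with ⟨t, ht⟩ | h4 | h4 | h4
        · have e : ex (d 0) (d 1) (d 2) = exx (b2 t) := by rw [← ht]; rfl
          rw [e, L2_basis]
          simp [Pi.single_apply]
        · have e : ex (d 0) (d 1) (d 2) = ex 0 2 0 := by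
            rw [ex_inj]; simpa using h4
          rw [e]
          exact exc2 k 0 12 (by simp)
        · have e : ex (d 0) (d 1) (d 2) = ex 0 2 1 := by
            rw [ex_inj]; simpa using h4
          rw [e]
          exact exc2 k 1 15 (by simp)
        · have e : ex (d 0) (d 1) (d 2) = ex 0 2 2 := by
            rw [ex_inj]; simpa using h4
          rw [e]
          exact exc2 k 2 17 (by simp)

lemma hilbert_I2 : hilbertFn (I2 k) = T0 := by
  funext i
  rw [(pres2 k).hilbertFn_eq]
  have h : ∀ s, ((pres2 k).B s).degree = (b2 s).1 + (b2 s).2.1 + (b2 s).2.2 := fun s =>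
    exx_degree _
  simp only [h]
  by_cases hi : i < 7
  · interval_cases i <;> decide
  · have h1 : T0 i = 0 := by
      simp only [T0]
      rw [List.getD_eq_default]
      simpa using hi
    rw [h1, Finset.card_eq_zero, Finset.filter_eq_empty_iff]
    intro s _
    have : (b2 s).1 + (b2 s).2.1 + (b2 s).2.2 < 7 := by revert s; decide
    omega

/-- the second point of `CI(T0)` -/
noncomputable def pt2 : Hilb k 18 := ⟨I2 k, (pres2 k).finite, (pres2 k).finrank_quot⟩

lemma pt2_mem : pt2 k ∈ CI k 18 T0 := ⟨hilbert_I2 k, _, _, _, rfl⟩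

end Pool.Agent.Work.MP_5fe04c_ag
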