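import Mathlib
import Pool.Agent.Work.MP_5fe04c_ag.Defs

namespace Pool.Agent.Work.MP_5fe04c_ag

open MvPowerSeries

variable {k : Type*} [Field k]

/-- the nonvanishing locus of a polynomial is open in the space of framed ideals -/
lemma isOpen_frame_ne (n : ℕ) (P : MvPolynomial (Fin n × {d : Fin 3 →₀ ℕ // d.degree < n}) k) :
    IsOpen {F : Frame k n | MvPolynomial.eval F.coords P ≠ 0} := by
  refine isOpen_induced_iff.mpr ⟨PrimeSpectrum.basicOpen P, PrimeSpectrum.isOpen_basicOpen, ?_⟩
  ext F
  simp only [Set.mem_preimage, Set.mem_ofPred_eq, SetLike.mem_coe, PrimeSpectrum.mem_basicOpen]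
  rw [not_iff_not]
  change P ∈ MvPolynomial.vanishingIdeal k {F.coords} ↔ _
  rw [MvPolynomial.mem_vanishingIdeal_singleton_iff]
  rfl

/-- Sets of ideals defined by the existence of functionals vanishing on the ideal such that a
polynomial in their values at monomials does not vanish. -/
def polySet (n m : ℕ) (P : MvPolynomial (Fin m × {d : Fin 3 →₀ ℕ // d.degree < n}) k) :
    Set (Hilb k n) :=
  {I | ∃ φ : Fin m → (PS k →ₗ[k] k), (∀ i, ∀ f ∈ I.ideal, φ i f = 0) ∧
    MvPolynomial.eval (fun p => φ p.1 (monomial p.2.1 (1 : k))) P ≠ 0}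

lemma isOpen_polySet (n m : ℕ)
    (P : MvPolynomial (Fin m × {d : Fin 3 →₀ ℕ // d.degree < n}) k) :
    IsOpen (polySet n m P) := by
  rw [isOpen_coinduced]
  have key : (Frame.pt ⁻¹' (polySet n m P) : Set (Frame k n)) =
      ⋃ a : Fin m → Fin n → k, {F : Frame k n | MvPolynomial.eval F.coords
        (MvPolynomial.aeval (fun p : Fin m × {d : Fin 3 →₀ ℕ // d.degree < n} =>
          ∑ j : Fin n, MvPolynomial.C (a p.1 j) * MvPolynomial.X (j, p.2)) P) ≠ 0} := by
    ext F
    have hev : ∀ a : Fin m → Fin n → k, MvPolynomial.eval F.coords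
        (MvPolynomial.aeval (fun p : Fin m × {d : Fin 3 →₀ ℕ // d.degree < n} =>
          ∑ j : Fin n, MvPolynomial.C (a p.1 j) * MvPolynomial.X (j, p.2)) P) =
        MvPolynomial.eval (fun p => ∑ j : Fin n, a p.1 j * F.coords (j, p.2)) P := by
      intro a
      rw [← MvPolynomial.aeval_eq_eval, ← MvPolynomial.aeval_eq_eval, ← AlgHom.comp_apply,
        MvPolynomial.comp_aeval]
      congr 2
      ext p
      simp
    simp only [Set.mem_preimage, Set.mem_iUnion, Set.mem_ofPred_eq, polySet]
    constructor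
    · rintro ⟨φ, hφ, hne⟩
      -- factor through the quotient
      let ψ : Fin m → ((PS k ⧸ F.pt.ideal) →ₗ[k] k) := fun i =>
        (Submodule.liftQ (F.pt.ideal.restrictScalars k) (φ i) (fun f hf => hφ i f hf)) 
      obtain ⟨a0, ha0⟩ : ∃ a0 : Fin m → Fin n → k,
        ∀ i j, a0 i j = ψ i (F.iso.symm (Pi.single j 1)) := ⟨_, fun _ _ => rfl⟩
      refine ⟨a0, ?_⟩
      rw [hev a0]
      have : (fun p : Fin m × {d : Fin 3 →₀ ℕ // d.degree < n} =>
          ∑ j : Fin n, a0 p.1 j * F.coords (j, p.2)) =
          fun p => φ p.1 (monomial p.2.1 (1 : k)) := by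
        ext p
        simp only [ha0]
        have h1 : ψ p.1 (Ideal.Quotient.mk F.pt.ideal (monomial p.2.1 (1 : k))) =
          φ p.1 (monomial p.2.1 (1 : k)) := rfl
        rw [← h1]
        set v := Ideal.Quotient.mk F.pt.ideal (monomial p.2.1 (1 : k)) with hv
        have h2 : v = F.iso.symm (F.iso v) := (F.iso.symm_apply_apply v).symm
        have h3 : F.iso v = ∑ j : Fin n, (F.iso v j) • (Pi.single j (1:k) : Fin n → k) := by
          ext t
          simp [Finset.sum_apply, Pi.single_apply]
        conv_rhs => rw [h2, h3]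
        rw [map_sum, map_sum]
        refine Finset.sum_congr rfl fun j _ => ?_
        rw [map_smul, map_smul, smul_eq_mul, mul_comm]
        rfl
      rw [this]
      exact hne
    · rintro ⟨a, ha⟩
      rw [hev] at ha
      refine ⟨fun i => ∑ j : Fin n, a i j • ((LinearMap.proj j).comp
        (F.iso.toLinearMap.comp ((Ideal.Quotient.mkₐ k F.pt.ideal).toLinearMap))), ?_, ?_⟩
      · intro i f hf
        have : Ideal.Quotient.mk F.pt.ideal f = 0 := Ideal.Quotient.eq_zero_iff_mem.mpr hf
        simp [LinearMap.sum_apply, this]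
      · convert ha using 3
        simp [LinearMap.sum_apply, Frame.coords]
  rw [key]
  exact isOpen_iUnion fun a => isOpen_frame_ne n _

end Pool.Agent.Work.MP_5fe04c_ag
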