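import Mathlib
import Pool.Agent.Work.MP_5fe04c_ag.OpenSets
import Pool.Agent.Work.MP_5fe04c_ag.Ex2

namespace Pool.Agent.Work.MP_5fe04c_ag

open MvPowerSeries Finsupp

variable (k : Type*) [Field k]

/-- index set of the coordinates -/
abbrev DD := {d : Fin 3 →₀ ℕ // d.degree < 18}

/-- the variable representing the value of the `i`-th functional at `x^a y^b z^c` -/
noncomputable def vx {m : ℕ} (i : Fin m) (a b c : ℕ) : MvPolynomial (Fin m × DD) k :=
  if h : a + b + c < 18 then MvPolynomial.X (i, ⟨ex a b c, by rw [ex_degree]; exact h⟩) else 0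

lemma eval_vx {m : ℕ} (i : Fin m) (a b c : ℕ) (h : a + b + c < 18) (φ : Fin m → (PS k →ₗ[k] k)) :
    MvPolynomial.eval (fun p : Fin m × DD => φ p.1 (monomial p.2.1 (1 : k))) (vx k i a b c) =
      φ i (mo k a b c) := by
  rw [vx, dif_pos h, MvPolynomial.eval_X]
  rfl

/-- the exponents of the rows and the columns of the second determinant -/
def uu : Fin 3 → ℕ × ℕ × ℕ := ![(2,0,0), (1,0,1), (0,0,2)]

/-- the exponents of the rows and the columns of the second determinant -/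
def vv : Fin 3 → ℕ × ℕ × ℕ := ![(2,0,2), (3,0,1), (4,0,0)]

/-- the second determinant -/
noncomputable def P2 : MvPolynomial (Fin 1 × DD) k :=
  (Matrix.of fun i j : Fin 3 => vx k (0 : Fin 1) ((uu i).1 + (vv j).1) ((uu i).2.1 + (vv j).2.1)
    ((uu i).2.2 + (vv j).2.2)).det

lemma eval_P2 (φ : Fin 1 → (PS k →ₗ[k] k)) :
    MvPolynomial.eval (fun p : Fin 1 × DD => φ p.1 (monomial p.2.1 (1 : k))) (P2 k) =
    (Matrix.of fun i j : Fin 3 => φ 0 (mo k (uu i).1 (uu i).2.1 (uu i).2.2 *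
      mo k (vv j).1 (vv j).2.1 (vv j).2.2)).det := by
  rw [P2, RingHom.map_det]
  congr 1
  ext i j
  rw [RingHom.mapMatrix_apply, Matrix.map_apply, Matrix.of_apply, Matrix.of_apply, mo_mul,
    eval_vx]
  revert i j; decide

/-- the exponents of the basis of the cube of the maximal ideal -/
def ss : Fin 10 → ℕ × ℕ × ℕ := ![(3,0,0), (0,3,0), (2,0,1), (0,2,1), (0,4,0), (3,0,1), (0,3,1),
  (0,5,0), (0,4,1), (0,5,1)]

/-- the linear form, as a triple of polynomials -/
noncomputable def ll0 : MvPolynomial (Fin 13 × DD) k :=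
  vx k 0 0 5 1 * vx k 0 0 5 1 - vx k 0 0 4 2 * vx k 0 0 6 0
/-- the linear form, as a triple of polynomials -/
noncomputable def ll1 : MvPolynomial (Fin 13 × DD) k :=
  vx k 0 0 4 2 * vx k 0 1 5 0 - vx k 0 1 4 1 * vx k 0 0 5 1
/-- the linear form, as a triple of polynomials -/
noncomputable def ll2 : MvPolynomial (Fin 13 × DD) k :=
  vx k 0 1 4 1 * vx k 0 0 6 0 - vx k 0 0 5 1 * vx k 0 1 5 0

/-- the first determinant -/
noncomputable def P1 : MvPolynomial (Fin 13 × DD) k :=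
  (Matrix.of fun i j : Fin 12 =>
    (Fin.cons (ll0 k * vx k i.succ 2 0 0 + ll1 k * vx k i.succ 1 1 0 + ll2 k * vx k i.succ 1 0 1)
      (Fin.cons (ll0 k * vx k i.succ 1 0 1 + ll1 k * vx k i.succ 0 1 1 +
        ll2 k * vx k i.succ 0 0 2)
        (fun t : Fin 10 => vx k i.succ (ss t).1 (ss t).2.1 (ss t).2.2)) :
      Fin 12 → MvPolynomial (Fin 13 × DD) k) j).det

/-- value of the linear form -/
noncomputable def lf (ψ : PS k →ₗ[k] k) : PS k :=
  (ψ (mo k 0 5 1) * ψ (mo k 0 5 1) - ψ (mo k 0 4 2) * ψ (mo k 0 6 0)) • mo k 1 0 0 +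
  (ψ (mo k 0 4 2) * ψ (mo k 1 5 0) - ψ (mo k 1 4 1) * ψ (mo k 0 5 1)) • mo k 0 1 0 +
  (ψ (mo k 1 4 1) * ψ (mo k 0 6 0) - ψ (mo k 0 5 1) * ψ (mo k 1 5 0)) • mo k 0 0 1

/-- the twelve elements -/
noncomputable def bb (ψ : PS k →ₗ[k] k) : Fin 12 → PS k :=
  Fin.cons (lf k ψ * mo k 1 0 0) (Fin.cons (lf k ψ * mo k 0 0 1)
    (fun t : Fin 10 => mo k (ss t).1 (ss t).2.1 (ss t).2.2))

lemma eval_P1 (φ : Fin 13 → (PS k →ₗ[k] k)) :
    MvPolynomial.eval (fun p : Fin 13 × DD => φ p.1 (monomial p.2.1 (1 : k))) (P1 k) =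
    (Matrix.of fun i j : Fin 12 => φ i.succ (bb k (φ 0) j)).det := by
  rw [P1, RingHom.map_det]
  congr 1
  ext i j
  rw [RingHom.mapMatrix_apply, Matrix.map_apply, Matrix.of_apply, Matrix.of_apply]
  refine Fin.cases ?_ (fun j => Fin.cases ?_ (fun j => ?_) j) j
  · simp only [Fin.cons_zero, bb, map_add, map_mul, ll0, ll1, ll2, map_sub]
    simp only [eval_vx k _ _ _ _ (by norm_num : 0 + 5 + 1 < 18),
      eval_vx k _ _ _ _ (by norm_num : 0 + 4 + 2 < 18),
      eval_vx k _ _ _ _ (by norm_num : 0 + 6 + 0 < 18),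
      eval_vx k _ _ _ _ (by norm_num : 1 + 5 + 0 < 18),
      eval_vx k _ _ _ _ (by norm_num : 1 + 4 + 1 < 18),
      eval_vx k _ _ _ _ (by norm_num : 2 + 0 + 0 < 18),
      eval_vx k _ _ _ _ (by norm_num : 1 + 1 + 0 < 18),
      eval_vx k _ _ _ _ (by norm_num : 1 + 0 + 1 < 18)]
    simp only [lf, add_mul, smul_mul_assoc, mo_mul, map_add, map_smul, smul_eq_mul,
      Nat.reduceAdd]
  · simp only [Fin.cons_zero, Fin.cons_succ, bb, map_add, map_mul, ll0, ll1, ll2, map_sub]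
    simp only [eval_vx k _ _ _ _ (by norm_num : 0 + 5 + 1 < 18),
      eval_vx k _ _ _ _ (by norm_num : 0 + 4 + 2 < 18),
      eval_vx k _ _ _ _ (by norm_num : 0 + 6 + 0 < 18),
      eval_vx k _ _ _ _ (by norm_num : 1 + 5 + 0 < 18),
      eval_vx k _ _ _ _ (by norm_num : 1 + 4 + 1 < 18),
      eval_vx k _ _ _ _ (by norm_num : 1 + 0 + 1 < 18),
      eval_vx k _ _ _ _ (by norm_num : 0 + 1 + 1 < 18),
      eval_vx k _ _ _ _ (by norm_num : 0 + 0 + 2 < 18)]
    simp only [lf, add_mul, smul_mul_assoc, mo_mul, map_add, map_smul, smul_eq_mul,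
      Nat.reduceAdd]
  · simp only [Fin.cons_succ, bb]
    rw [eval_vx]
    revert j; decide

lemma disjoint_polySets (I : Hilb k 18) (hT : hilbertFn I.ideal = T0)
    (h1 : I ∈ polySet 18 13 (P1 k)) (h2 : I ∈ polySet 18 1 (P2 k)) : False := by
  obtain ⟨φ, hφ, hP1⟩ := h1
  obtain ⟨θ, hθ, hP2⟩ := h2
  rw [eval_P1] at hP1
  rw [eval_P2] at hP2
  have := I.finite
  refine disj I.ideal I.colength hT (θ 0) (hθ 0)
    (fun i => mo k (uu i).1 (uu i).2.1 (uu i).2.2) (fun j => mo k (vv j).1 (vv j).2.1 (vv j).2.2)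
    ?_ ?_ hP2 (φ 0) (hφ 0) (fun i => φ i.succ) (fun i => hφ i.succ)
    (mo k 0 4 1) (mo k 0 5 0) (mo_mem _ _ _ _ (by norm_num)) (mo_mem _ _ _ _ (by norm_num))
    _ _ _ rfl rfl rfl (lf k (φ 0)) ?_ (mo k 1 0 0) (mo k 0 0 1)
    (mo_mem _ _ _ _ (by norm_num)) (mo_mem _ _ _ _ (by norm_num))
    (fun t => mo k (ss t).1 (ss t).2.1 (ss t).2.2) ?_ (bb k (φ 0)) rfl rfl (fun i => rfl) hP1
  · intro i
    apply mo_mem
    revert i; decide
  · intro i
    apply mo_mem
    revert i; decide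
  · simp only [mo_mul, Nat.reduceAdd, lf]
  · intro i
    apply mo_mem
    revert i; decide

/-- functionals for the first point -/
def idx1 : Fin 13 → Fin 18 := ![17, 4, 6, 8, 9, 10, 11, 12, 13, 14, 15, 16, 17]

lemma coeff_mo_L1 (s : Fin 18) (a b c : ℕ) : L1 k (mo k a b c) s =
    (if b1 s = (a, b, c) then 1 else 0) + c1 k s * (if b1' s = (a, b, c) then 1 else 0) := by
  classical
  rw [L1_apply, mo, coeff_monomial, coeff_monomial]
  have : ∀ t : ℕ × ℕ × ℕ, exx t = ex a b c ↔ t = (a, b, c) := by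
    intro t
    rw [← exx_inj]
    rfl
  simp only [this]

lemma aux1 : ∀ i : Fin 12, ∀ j : Fin 10, (b1 (idx1 i.succ) = ss j) ↔ (i = j.succ.succ) := by
  decide

lemma aux1' : ∀ i : Fin 12, ∀ j : Fin 10, (b1' (idx1 i.succ) = ss j) →
    ¬ (idx1 i.succ = 15 ∨ idx1 i.succ = 17) := by
  decide

lemma pt1_mem_P1 : pt1 k ∈ polySet 18 13 (P1 k) := by
  refine ⟨fun i => (LinearMap.proj (idx1 i)).comp (L1 k), ?_, ?_⟩
  · intro i f hf
    rw [LinearMap.comp_apply, L1_I1 k f hf, map_zero]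
  · have hev := eval_P1 k (fun i => (LinearMap.proj (idx1 i)).comp (L1 k))
    beta_reduce at hev
    rw [hev]
    have hlf : lf k ((LinearMap.proj (idx1 0)).comp (L1 k)) = mo k 1 0 0 := by
      simp only [lf, LinearMap.comp_apply, LinearMap.proj_apply, coeff_mo_L1]
      simp [idx1, b1, b1', c1]
    have hM : (Matrix.of fun i j : Fin 12 =>
        ((LinearMap.proj (idx1 i.succ)).comp (L1 k)) (bb k
          ((LinearMap.proj (idx1 0)).comp (L1 k)) j)) = (1 : Matrix (Fin 12) (Fin 12) k) := by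
      ext i j
      rw [Matrix.of_apply, LinearMap.comp_apply, LinearMap.proj_apply, Matrix.one_apply]
      refine Fin.cases ?_ (fun j => Fin.cases ?_ (fun j => ?_) j) j
      · simp only [bb, Fin.cons_zero, hlf, mo_mul, coeff_mo_L1]
        fin_cases i <;> simp [idx1, b1, b1', c1]
      · simp only [bb, Fin.cons_zero, Fin.cons_succ, hlf, mo_mul, coeff_mo_L1]
        fin_cases i <;> simp [idx1, b1, b1', c1]
      · simp only [bb, Fin.cons_succ, coeff_mo_L1]
        have h1 : ((if b1 (idx1 i.succ) = ((ss j).1, (ss j).2.1, (ss j).2.2) then 1 else 0) : k) =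
            if i = j.succ.succ then 1 else 0 := if_congr (aux1 i j) rfl rfl
        have h2 : c1 k (idx1 i.succ) *
            (if b1' (idx1 i.succ) = ((ss j).1, (ss j).2.1, (ss j).2.2) then 1 else 0) = 0 := by
          split_ifs with h
          · rw [c1, if_neg (aux1' i j h), zero_mul]
          · rw [mul_zero]
        rw [h1, h2, add_zero]
    rw [hM, Matrix.det_one]
    exact one_ne_zero

lemma coeff_mo_L2 (s : Fin 18) (a b c : ℕ) : L2 k (mo k a b c) s =
    (if b2 s = (a, b, c) then 1 else 0) + c2 k s * (if b2' s = (a, b, c) then 1 else 0) := by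
  classical
  rw [L2_apply, mo, coeff_monomial, coeff_monomial]
  have : ∀ t : ℕ × ℕ × ℕ, exx t = ex a b c ↔ t = (a, b, c) := by
    intro t
    rw [← exx_inj]
    rfl
  simp only [this]

lemma pt2_mem_P2 : pt2 k ∈ polySet 18 1 (P2 k) := by
  refine ⟨fun i => (LinearMap.proj 17).comp (L2 k), ?_, ?_⟩
  · intro i f hf
    rw [LinearMap.comp_apply, L2_I2 k f hf, map_zero]
  · have hev := eval_P2 k (fun _ => (LinearMap.proj 17).comp (L2 k))
    beta_reduce at hev
    rw [hev]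
    have hM : (Matrix.of fun i j : Fin 3 => ((LinearMap.proj 17).comp (L2 k))
        (mo k (uu i).1 (uu i).2.1 (uu i).2.2 *
      mo k (vv j).1 (vv j).2.1 (vv j).2.2)) = (1 : Matrix (Fin 3) (Fin 3) k) := by
      ext i j
      rw [Matrix.of_apply, LinearMap.comp_apply, LinearMap.proj_apply, mo_mul, coeff_mo_L2]
      fin_cases i <;> fin_cases j <;> simp [uu, vv, b2, b2', c2]
    rw [hM, Matrix.det_one]
    exact one_ne_zero

/-- two disjoint nonempty relatively open subsets give two irreducible components -/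
lemma two_components {X : Type*} [TopologicalSpace X] (U V : Set X) (hU : IsOpen U)
    (hV : IsOpen V) (hUn : U.Nonempty) (hVn : V.Nonempty) (hUV : Disjoint U V) :
    (irreducibleComponents X).Nontrivial := by
  obtain ⟨x, hx⟩ := hUn
  obtain ⟨y, hy⟩ := hVn
  refine ⟨irreducibleComponent x, irreducibleComponent_mem_irreducibleComponents x,
    irreducibleComponent y, irreducibleComponent_mem_irreducibleComponents y, ?_⟩
  intro heq
  have hirr : IsIrreducible (irreducibleComponent x) := isIrreducible_irreducibleComponent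
  have h := hirr.2 U V hU hV ⟨x, mem_irreducibleComponent, hx⟩
    ⟨y, heq ▸ mem_irreducibleComponent, hy⟩
  obtain ⟨z, _, hz⟩ := h
  exact Set.disjoint_left.mp hUV hz.1 hz.2

theorem main : (irreducibleComponents ↥(CI k 18 T0)).Nontrivial := by
  refine two_components (Subtype.val ⁻¹' polySet 18 13 (P1 k)) (Subtype.val ⁻¹' polySet 18 1 (P2 k))
    ((isOpen_polySet _ _ _).preimage continuous_subtype_val)
    ((isOpen_polySet _ _ _).preimage continuous_subtype_val)
    ⟨⟨pt1 k, pt1_mem k⟩, pt1_mem_P1 k⟩ ⟨⟨pt2 k, pt2_mem k⟩, pt2_mem_P2 k⟩ ?_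
  rw [Set.disjoint_left]
  rintro ⟨I, hI⟩ h1 h2
  exact disjoint_polySets k I hI.1 h1 h2

end Pool.Agent.Work.MP_5fe04c_ag
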